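import Mathlib
import Pool.Agent.H.MP_7fc841_nt.B

namespace Pool.Agent.Results.MP_7fc841_nt.Yes

open Finset Pool.Agent.H.MP_7fc841_nt

/-- rising factorial `(a)_k` -/
def poch (a : ℚ) (k : ℕ) : ℚ := ∏ i ∈ range k, (a + i)

/-- `S_r(p)` of the problem, with `N = p^r - 1` -/
def S (r p : ℕ) : ℚ := ∑ k ∈ range (p ^ r - 1 + 1),
  (2 * ((p ^ r - 1 : ℕ) : ℚ) * k - 1) *
    (poch (-1 / ((p ^ r - 1 : ℕ) : ℚ)) k / k.factorial) ^ (2 * (p ^ r - 1))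

theorem result (p : ℕ) (hp : p.Prime) (h3 : 3 < p) (r : ℕ) (hr : 1 ≤ r) :
    Nat.Coprime (S r p / (p : ℚ) ^ (2 * r + 3)).den p := by
  have := Fact.mk hp
  obtain ⟨N, hN⟩ : ∃ N, p ^ r = N + 1 := ⟨p ^ r - 1, by have := pow_pos hp.pos r; omega⟩
  have hM : ¬ p ∣ N := fun h1 => hp.one_lt.ne'
    (Nat.dvd_one.1 ((Nat.dvd_add_right h1).1 (hN ▸ dvd_pow_self p (by omega))))
  obtain ⟨w, hw⟩ := (main r N h3 hr hM).1
  have N0 : (N : ℚ) ≠ 0 := Nat.cast_ne_zero.2 fun h => hM (h ▸ dvd_zero p)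
  have e : S r p = N * Sig (p ^ r) N := by
    rw [S, Sig, hN, Nat.add_sub_cancel, mul_sum, show (1 - ((N + 1 : ℕ) : ℚ) / N) = -1 / N by
      push_cast; field_simp; ring]
    refine sum_congr rfl fun k _ => ?_
    rw [poch, ← mul_assoc]
    congr 1
    field_simp
    ring
  refine den_cop _ (N * w) ?_
  have p0 : (p : ℚ_[p]) ≠ 0 := Nat.cast_ne_zero.2 hp.ne_zero
  rw [e]
  push_cast
  rw [hw]
  field_simp

end Pool.Agent.Results.MP_7fc841_nt.Yes
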